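import Pool.Agent.H67.PI.Jor

/-!
Every finitely generated special Jordan algebra with an associative PI envelope embeds into a
2-generated special Jordan PI algebra (characteristic not two).

Proof: let `J ⊆ B⁺` be generated by `a 0, ..., a (k-1)`, `B` an associative PI algebra, and let
`C` be the unitization of `B`. In `M_N(C)`, `N = 4 k + 20`, take the cyclic permutation matrix
`x` and the diagonal matrix `y` with entries `1, 1, 1` at the places `0, 1, 3` and `a j` at the
place `4 j + 8`. The ruler `0, 1, 3` has no symmetry, so the Jordan algebra generated by `x` and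
`y` contains `e = e_11` and then all `(a j) e_11`. Matrices over `C` satisfy a multilinear
identity (codimension count); by Cohn's theorem (symmetric elements in at most three variables
are Jordan polynomials, proved in the imported file) every associative identity has a nonzero
Jordan polynomial as a consequence.
-/

set_option autoImplicit false

namespace Pool.Agent.Results.MP_e0d88d_al.JordanTwoGenerated

open Pool.Agent.H67.PI

universe u v

/-- An associative algebra `A` over a field `F` (not assumed unital) is PI: some nonzero
noncommutative polynomial `f` with zero constant term vanishes on `A`. (It is evaluated in the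
algebra `F ⊕ A` obtained by adjoining a unit.) -/
def IsPI (F : Type u) [Field F] (A : Type v) [NonUnitalRing A] [Module F A]
    [IsScalarTower F A A] [SMulCommClass F A A] : Prop :=
  ∃ (n : ℕ) (f : FreeAlgebra F (Fin n)), f ≠ 0 ∧ FreeAlgebra.algebraMapInv f = 0 ∧
    ∀ a : Fin n → A,
      FreeAlgebra.lift F (fun i => (Unitization.inr (a i) : Unitization F A)) f = 0

/-- The Jordan product `a ∘ b = (ab + ba)/2`. -/
noncomputable def circ (F : Type u) [Field F] {A : Type v} [NonUnitalRing A] [Module F A]
    (a b : A) : A := (2 : F)⁻¹ • (a * b + b * a)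

/-- The Jordan subalgebra of `A⁺` generated by a subset `X`: the least subspace which contains
`X` and is closed under the Jordan product. -/
def jordanAdjoin (F : Type u) [Field F] {A : Type v} [NonUnitalRing A] [Module F A]
    (X : Set A) : Submodule F A :=
  sInf {S : Submodule F A | X ⊆ S ∧ ∀ a ∈ S, ∀ b ∈ S, circ F a b ∈ S}

/-- The free special Jordan algebra on `n` generators. -/
def SJ (F : Type u) [Field F] (n : ℕ) : Submodule F (FreeAlgebra F (Fin n)) :=
  jordanAdjoin F (Set.range (FreeAlgebra.ι F))

/-- A Jordan subalgebra `J` of `A⁺`, `A` associative, is PI: some nonzero element of a free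
special Jordan algebra vanishes on `J`. -/
def IsJordanPI (F : Type u) [Field F] {A : Type v} [NonUnitalRing A] [Module F A]
    [IsScalarTower F A A] [SMulCommClass F A A] (J : Submodule F A) : Prop :=
  ∃ (n : ℕ) (f : FreeAlgebra F (Fin n)), f ∈ SJ F n ∧ f ≠ 0 ∧
    ∀ a : Fin n → A, (∀ i, a i ∈ J) →
      FreeAlgebra.lift F (fun i => (Unitization.inr (a i) : Unitization F A)) f = 0

section closed

variable {F : Type u} [Field F] {A : Type v} [NonUnitalRing A] [Module F A]

theorem subset_jordanAdjoin (X : Set A) : X ⊆ jordanAdjoin F X := by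
  intro x hx
  rw [jordanAdjoin, SetLike.mem_coe, Submodule.mem_sInf]
  intro S hS
  exact hS.1 hx

theorem jordanAdjoin_le {X : Set A} {S : Submodule F A} (h1 : X ⊆ S)
    (h2 : ∀ a ∈ S, ∀ b ∈ S, circ F a b ∈ S) : jordanAdjoin F X ≤ S :=
  sInf_le ⟨h1, h2⟩

theorem circ_mem (X : Set A) : ∀ a ∈ jordanAdjoin F X, ∀ b ∈ jordanAdjoin F X,
    circ F a b ∈ jordanAdjoin F X := by
  intro a ha b hb
  rw [jordanAdjoin, Submodule.mem_sInf] at *
  intro S hS
  exact hS.2 a (ha S hS) b (hb S hS)

theorem add_mem' (h2 : (2 : F) ≠ 0) (X : Set A) : ∀ a ∈ jordanAdjoin F X,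
    ∀ b ∈ jordanAdjoin F X, a * b + b * a ∈ jordanAdjoin F X := by
  intro a ha b hb
  have h := Submodule.smul_mem _ (2 : F) (circ_mem X a ha b hb)
  rwa [circ, smul_smul, mul_inv_cancel₀ h2, one_smul] at h

end closed

/-- Let `F` be a field of characteristic not two, `B` an associative PI algebra over `F` and
`J ⊆ B⁺` the Jordan algebra generated by `k` elements. There are an associative PI algebra `M`,
two elements `x`, `y` of `M` and an injective homomorphism `φ : B → M` of associative algebras
which maps `J` into the Jordan algebra `P ⊆ M⁺` generated by `x` and `y`; and `P` is a special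
Jordan PI algebra. -/
theorem result (F : Type u) [Field F] (h2 : (2 : F) ≠ 0) (B : Type v) [NonUnitalRing B]
    [Module F B] [IsScalarTower F B B] [SMulCommClass F B B] (hB : IsPI F B) (k : ℕ)
    (a : Fin k → B) :
    ∃ (M : Type (max u v)) (_ : NonUnitalRing M) (_ : Module F M) (_ : IsScalarTower F M M)
      (_ : SMulCommClass F M M) (x y : M) (φ : B →ₙₐ[F] M),
      IsPI F M ∧ Function.Injective φ ∧
      (∀ b ∈ jordanAdjoin F (Set.range a), φ b ∈ jordanAdjoin F {x, y}) ∧
      IsJordanPI F (jordanAdjoin F {x, y}) := by
  classical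
  obtain ⟨n, f, hf, -, hfB⟩ := hB
  set N : ℕ := 4 * k + 20 with hN
  have : NeZero N := ⟨by omega⟩
  obtain ⟨m, α, hm, hα, hMα⟩ := unitization_matrix f hf hfB (ZMod N)
  let M := Matrix (ZMod N) (ZMod N) (Unitization F B)
  let a' : ℕ → Unitization F B := fun j => if hj : j < k then Unitization.inr (a ⟨j, hj⟩) else 0
  let x : M := P (Unitization F B) N 1
  let y : M := Matrix.diagonal (h N a')
  let φ : B →ₙₐ[F] M :=
    { toFun := fun b => Matrix.single 1 1 (Unitization.inr b)
      map_smul' := by
        intro t b
        rw [Unitization.inr_smul]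
        exact (Matrix.smul_single t 1 1 _).symm
      map_zero' := by simp
      map_add' := by
        intro b b'
        rw [Unitization.inr_add, Matrix.single_add]
      map_mul' := by
        intro b b'
        rw [Unitization.inr_mul, Matrix.single_mul_single_same] }
  have hφinj : Function.Injective φ := by
    intro b b' hbb
    have h1 := congrArg (fun X : M => X 1 1) hbb
    have h2 : (Unitization.inr b : Unitization F B) = Unitization.inr b' := by
      simpa [φ] using h1
    exact Unitization.inr_injective h2
  have hx : x ∈ jordanAdjoin F ({x, y} : Set M) := subset_jordanAdjoin _ (by simp)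
  have hy : y ∈ jordanAdjoin F ({x, y} : Set M) := subset_jordanAdjoin _ (by simp)
  have hcl := add_mem' (A := M) h2 ({x, y} : Set M)
  have hev : ∀ (r : ℕ) (g : FreeAlgebra F (Fin r)), FreeAlgebra.algebraMapInv g = 0 →
      ∀ b : Fin r → M, FreeAlgebra.lift F b g = 0 →
      FreeAlgebra.lift F (fun i => (Unitization.inr (b i) : Unitization F M)) g = 0 := by
    intro r g hg b hb
    exact ev_eq_zero g hg (NonUnitalAlgHom.id F M) (fun _ _ h => h) b hb
  refine ⟨M, inferInstance, inferInstance, inferInstance, inferInstance, x, y, φ, ?_, hφinj,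
    ?_, ?_⟩
  · refine ⟨m, mlp α, mlp_ne_zero α hα, mlp_const hm α, fun b => ?_⟩
    apply hev _ _ (mlp_const hm α)
    rw [mlp_lift]
    exact hMα b
  · have h1 : jordanAdjoin F (Set.range a) ≤
        (jordanAdjoin F ({x, y} : Set M)).comap (φ : B →ₗ[F] M) := by
      apply jordanAdjoin_le
      · rintro _ ⟨j, rfl⟩
        have h3 := jordan_gen F (N := N) h2 (by omega) (by omega) a'
          (jordanAdjoin F ({x, y} : Set M)) hcl hx hy j.val (by omega)
        have h4 : a' j.val = Unitization.inr (a j) := by
          simp [a']
        rw [h4] at h3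
        exact h3
      · intro b hb b' hb'
        have h3 := circ_mem ({x, y} : Set M) _ hb _ hb'
        have h4 : (φ : B →ₗ[F] M) (circ F b b') =
            circ F ((φ : B →ₗ[F] M) b) ((φ : B →ₗ[F] M) b') := by
          change φ _ = circ F (φ b) (φ b')
          simp only [circ, map_smul, map_add, map_mul]
        rw [Submodule.mem_comap, h4]
        exact h3
    intro b hb
    exact h1 hb
  · obtain ⟨g, hgS, hg0, hgc, hgv⟩ := jordan_identity (F := F) h2 (SJ F 3)
      (add_mem' h2 _) (fun i => subset_jordanAdjoin _ ⟨i, rfl⟩) hm α hα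
    refine ⟨3, g, hgS, hg0, fun b _ => ?_⟩
    apply hev _ _ hgc
    exact hgv M hMα b

end Pool.Agent.Results.MP_e0d88d_al.JordanTwoGenerated
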