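import Pool.Agent.H67.PI.Emb

/-!
Every finitely generated associative PI algebra embeds into a 2-generated associative PI algebra.

Proof: let `A` be generated by `a 0, ..., a (k-1)` and let `C` be its unitization. In the matrix
algebra `M_N(C)`, `N = 4 k + 20`, take the cyclic permutation matrix `x` and the diagonal matrix
`y` with entries `1, 1, 1` at the places `0, 1, 3` and `a j` at the place `4 j + 8`. The algebra
generated by `x` and `y` contains `e = e_00 = y (x y x⁻¹)` and `e (x^p y x^(-p)) = (a j) e_00` for
`p = 4 j + 8`. It satisfies a polynomial identity: by Latyshev's argument the multilinear words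
of degree `m` in `A` are combinations of at most `(d+1)^(2m)` of them, with coefficients which do
not depend on the values; so in `M_N(C)` the vanishing of a multilinear polynomial of degree `m`
amounts to at most `K^m N^2 < m!` linear conditions on its coefficients.
-/

set_option autoImplicit false

namespace Pool.Agent.Results.MP_e0d88d_al.TwoGenerated

open Pool.Agent.H67.PI

universe u v

/-- An associative algebra `A` over a field `F` (not assumed unital) is PI: some nonzero
noncommutative polynomial `f` with zero constant term vanishes on `A`. (It is evaluated in the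
algebra `F ⊕ A` obtained by adjoining a unit.) -/
def IsPI (F : Type u) [Field F] (A : Type v) [NonUnitalRing A] [Module F A]
    [IsScalarTower F A A] [SMulCommClass F A A] : Prop :=
  ∃ (n : ℕ) (f : FreeAlgebra F (Fin n)), f ≠ 0 ∧ FreeAlgebra.algebraMapInv f = 0 ∧
    ∀ a : Fin n → A,
      FreeAlgebra.lift F (fun i => (Unitization.inr (a i) : Unitization F A)) f = 0

/-- `A` is generated as an `F`-algebra (without unit) by `k` of its elements. -/
def Generated (F : Type u) [Field F] (A : Type v) [NonUnitalRing A] [Module F A]
    [IsScalarTower F A A] [SMulCommClass F A A] (k : ℕ) : Prop :=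
  ∃ a : Fin k → A, NonUnitalAlgebra.adjoin F (Set.range a) = ⊤

/-- Q1, positive answer: every finitely generated associative PI algebra over a field embeds into
a 2-generated associative PI algebra. -/
theorem result (F : Type u) [Field F] (A : Type v) [NonUnitalRing A] [Module F A]
    [IsScalarTower F A A] [SMulCommClass F A A] (k : ℕ) (hgen : Generated F A k)
    (hPI : IsPI F A) :
    ∃ (B : Type (max u v)) (_ : NonUnitalRing B) (_ : Module F B) (_ : IsScalarTower F B B)
      (_ : SMulCommClass F B B) (φ : A →ₙₐ[F] B),
      Function.Injective φ ∧ Generated F B 2 ∧ IsPI F B := by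
  classical
  obtain ⟨a, ha⟩ := hgen
  obtain ⟨n, f, hf, -, hfA⟩ := hPI
  set N : ℕ := 4 * k + 20 with hN
  have : NeZero N := ⟨by omega⟩
  set M := Matrix (ZMod N) (ZMod N) (Unitization F A) with hM
  set a' : ℕ → Unitization F A := fun j => if hj : j < k then Unitization.inr (a ⟨j, hj⟩) else 0
    with ha'
  set x : M := P (Unitization F A) N 1 with hx
  set y : M := Matrix.diagonal (h N a') with hy
  let B : NonUnitalSubalgebra F M := NonUnitalAlgebra.adjoin F {x, y}
  have hxB : x ∈ B := NonUnitalAlgebra.subset_adjoin F (by simp)
  have hyB : y ∈ B := NonUnitalAlgebra.subset_adjoin F (by simp)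
  let ψ : A →ₙₐ[F] M :=
    { toFun := fun b => Matrix.single 0 0 (Unitization.inr b)
      map_smul' := by
        intro t b
        rw [Unitization.inr_smul]
        exact (Matrix.smul_single t 0 0 _).symm
      map_zero' := by simp
      map_add' := by
        intro b b'
        rw [Unitization.inr_add, Matrix.single_add]
      map_mul' := by
        intro b b'
        rw [Unitization.inr_mul, Matrix.single_mul_single_same] }
  have hψinj : Function.Injective ψ := by
    intro b b' hbb
    have h1 := congrArg (fun X : M => X 0 0) hbb
    have h2 : (Unitization.inr b : Unitization F A) = Unitization.inr b' := by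
      simpa [ψ] using h1
    exact Unitization.inr_injective h2
  have hψB : ∀ b, ψ b ∈ B := by
    have h1 : NonUnitalAlgebra.adjoin F (Set.range a) ≤ B.comap ψ := by
      rw [NonUnitalAlgebra.adjoin_le_iff]
      rintro _ ⟨j, rfl⟩
      have h2 := assoc_gen F (N := N) (by omega) (by omega) a' B hxB hyB j.val (by omega)
      have h3 : a' j.val = Unitization.inr (a j) := by
        simp [ha']
      rw [h3] at h2
      exact h2
    intro b
    rw [ha] at h1
    exact h1 (show b ∈ (⊤ : NonUnitalSubalgebra F A) from trivial)
  obtain ⟨m, α, hm, hα, hMα⟩ := unitization_matrix f hf hfA (ZMod N)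
  refine ⟨B, inferInstance, inferInstance, inferInstance, inferInstance,
    NonUnitalAlgHom.codRestrict ψ B hψB, ?_, adjoin_two x y,
    m, mlp α, mlp_ne_zero α hα, mlp_const hm α, mlp_sub B hm α hMα⟩
  intro b b' hbb
  exact hψinj (congrArg Subtype.val hbb)

end Pool.Agent.Results.MP_e0d88d_al.TwoGenerated
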